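/-
Groups of exponent `2 ^ k` generated by fragments of two involutions (Stepin's problem for the
fragmentations of the infinite dihedral group).
-/
import Pool.Agent.Lib.FRG.Init

set_option autoImplicit false

namespace Pool.Agent.Results.MP_1f3970_al.DihedralFragments

/-- The element `g` acts as a fragment of `s`: it moves every point as `s` does or not at all. -/
def IsFragment {G X : Type*} [Group G] [MulAction G X] (s : X → X) (g : G) : Prop :=
  ∀ x : X, g • x = x ∨ g • x = s x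

/-- No orbit of the involutions `s₀`, `s₁` is a cycle: if `s₁ ∘ s₀` returns to `x` then `s₀` or `s₁`
fixes some point of the orbit (a path).  Infinite orbits are allowed. -/
def NoCycle {X : Type*} (s₀ s₁ : X → X) : Prop :=
  ∀ x : X, ∀ n : ℕ, 0 < n → (s₁ ∘ s₀)^[n] x = x →
    ∃ m : ℕ, s₀ ((s₁ ∘ s₀)^[m] x) = (s₁ ∘ s₀)^[m] x ∨ s₁ ((s₁ ∘ s₀)^[m] x) = (s₁ ∘ s₀)^[m] x

/-- **Theorem.**  Let `s₀`, `s₁` be involutions of a set `X` without cycles, and let `G` be a group
of permutations of `X` generated by any set of fragments of `s₀` and of `s₁`.  If `g ^ (2 ^ k) = 1`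
for all `g` in `G`, then every orbit of `G` has fewer than `2 ^ (2 (k + 1) ^ 2 + 1)` points, and every
finitely generated subgroup of `G` is finite. -/
theorem result {G X : Type*} [Group G] [MulAction G X] [FaithfulSMul G X] (s₀ s₁ : X → X)
    (h₀ : ∀ x, s₀ (s₀ x) = x) (h₁ : ∀ x, s₁ (s₁ x) = x) (hcyc : NoCycle s₀ s₁)
    (S : Set G) (hS : Subgroup.closure S = ⊤) (hfrag : ∀ g ∈ S, IsFragment s₀ g ∨ IsFragment s₁ g)
    (k : ℕ) (hexp : ∀ g : G, g ^ (2 ^ k) = 1) :
    (∀ x : X, (MulAction.orbit G x).Finite ∧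
      (MulAction.orbit G x).ncard < 2 ^ (2 * (k + 1) ^ 2 + 1)) ∧
    (∀ H : Subgroup G, H.FG → Finite H) := by
  have key : ∀ x : X, (MulAction.orbit G x).encard < (2 : ℕ∞) ^ (2 * (k + 1) ^ 2 + 1) := fun x =>
    Pool.Agent.FRG.orbit_encard_lt s₀ s₁ h₀ h₁ hcyc x hS hfrag hexp
  have hfin : ∀ x : X, (MulAction.orbit G x).Finite := fun x =>
    Set.encard_ne_top_iff.1 (ne_top_of_lt (key x))
  refine ⟨fun x => ⟨hfin x, ?_⟩, fun H hH => ?_⟩
  · have h := key x
    rw [← (hfin x).cast_ncard_eq] at h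
    exact_mod_cast h
  · refine Pool.Agent.FRG.finite_of_bounded (X := X) H ((Group.fg_iff_subgroup_fg H).2 hH)
      (N := 2 ^ (2 * (k + 1) ^ 2 + 1)) fun x => ?_
    have hsub : MulAction.orbit H x ⊆ MulAction.orbit G x := by
      rintro _ ⟨g, rfl⟩
      exact ⟨(g : G), rfl⟩
    refine (Set.encard_le_encard hsub).trans ((key x).le.trans ?_)
    push_cast
    exact le_rfl

end Pool.Agent.Results.MP_1f3970_al.DihedralFragments
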