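/-
Groups of bounded exponent: all Schreier graphs have uniformly superlinear growth.
-/
import Pool.Agent.Lib.LGU.Lin

set_option autoImplicit false

namespace Pool.Agent.Results.MP_1f3970_al.SuperlinearGrowth

/-- The edges of the Schreier graph of the generators `e`. -/
def Edge {G X : Type*} [Group G] [MulAction G X] {m : ℕ} (e : Fin m → G) (x y : X) : Prop :=
  ∃ i, e i • x = y ∨ e i • y = x

/-- The ball of radius `r` around `x` in the Schreier graph. -/
def ball {G X : Type*} [Group G] [MulAction G X] {m : ℕ} (e : Fin m → G) (x : X) : ℕ → Set X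
  | 0 => {x}
  | r + 1 => {y | y ∈ ball e x r ∨ ∃ z ∈ ball e x r, Edge e z y}

/-- `G` is of linear type: it has finitely many generators `e` and a faithful action such that, for some
`C`, there are arbitrarily large `r` for which all balls of radius `r` in the Schreier graph have at most
`C r` points. -/
def LinearType.{u, v} (G : Type u) [Group G] : Prop :=
  ∃ (m : ℕ) (e : Fin m → G) (X : Type v) (_ : MulAction G X) (C : ℕ),
    Subgroup.closure (Set.range e) = ⊤ ∧ (∀ g h : G, (∀ x : X, g • x = h • x) → g = h) ∧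
    ∀ R : ℕ, ∃ r : ℕ, R ≤ r ∧ ∀ x : X, (ball e x r).encard ≤ ((C * r : ℕ) : ℕ∞)

/-- The class `P` of groups contains the abelian groups, the finite groups and the groups of linear type,
and is closed under isomorphisms, subgroups, extensions and directed unions. -/
structure Closed.{u, v} (P : ∀ (G : Type u) [Group G], Prop) : Prop where
  comm : ∀ (G : Type u) [CommGroup G], P G
  fin : ∀ (G : Type u) [Group G] [Finite G], P G
  lin : ∀ (G : Type u) [Group G], LinearType.{u, v} G → P G
  iso : ∀ (G H : Type u) [Group G] [Group H], Nonempty (G ≃* H) → P G → P H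
  sub : ∀ (G : Type u) [Group G] (H : Subgroup G), P G → P H
  ext : ∀ (G : Type u) [Group G] (N : Subgroup G) [N.Normal], P N → P (G ⧸ N) → P G
  union : ∀ (G : Type u) [Group G] (S : Set (Subgroup G)), S.Nonempty → DirectedOn (· ≤ ·) S →
    (∀ g : G, ∃ K ∈ S, g ∈ K) → (∀ K ∈ S, P K) → P G

section

variable {G X : Type*} [Group G] [MulAction G X] {m : ℕ} (e : Fin m → G)

theorem mem_ball_iff (r : ℕ) (x y : X) :
    y ∈ ball e x r ↔ Pool.Agent.QLN.Within (Set.range e) r x y := by
  induction r generalizing y with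
  | zero =>
    constructor
    · rintro rfl; rfl
    · rintro rfl; rfl
  | succ r ih =>
    constructor
    · rintro (h | ⟨z, hz, i, h⟩)
      · exact ⟨y, (ih y).1 h, Or.inl rfl⟩
      · exact ⟨z, (ih z).1 hz, Or.inr ⟨e i, ⟨i, rfl⟩, h⟩⟩
    · rintro ⟨z, hz, rfl | ⟨s, ⟨i, rfl⟩, h⟩⟩
      · exact Or.inl ((ih z).2 hz)
      · exact Or.inr ⟨z, (ih z).2 hz, i, h⟩

theorem ball_eq' (r : ℕ) (x : X) :
    ball e x r = {z | Pool.Agent.QLN.Within (Set.range e) r x z} := by
  ext y
  exact mem_ball_iff e r x y

theorem ball_eq (r : ℕ) (x : X) :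
    ball e x r = Pool.Agent.QLN.ball (Pool.Agent.QLN.sig X e) x r := by
  ext y
  rw [mem_ball_iff, Pool.Agent.QLN.within_iff]

end

/-- the first part of the theorem -/
theorem growth.{u, v} (m n C : ℕ) (hn : 0 < n) :
    ∃ R : ℕ,
      (∀ (G : Type u) (X : Type v) [Group G] [MulAction G X] (e : Fin m → G),
        Subgroup.closure (Set.range e) = ⊤ → (∀ g : G, g ^ n = 1) →
        ∀ (x : X) (r : ℕ), R ≤ r → ball e x r = MulAction.orbit G x ∨
          ((C * r : ℕ) : ℕ∞) < (ball e x r).encard) ∧
      ∀ M : ℕ, ∃ N : ℕ, ∀ (G : Type u) (X : Type v) [Group G] [MulAction G X] [FaithfulSMul G X]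
        (e : Fin m → G), Subgroup.closure (Set.range e) = ⊤ → (∀ g : G, g ^ n = 1) →
        (∀ x : X, (M : ℕ∞) < (MulAction.orbit G x).encard →
          ∃ z ∈ MulAction.orbit G x, ∃ r : ℕ, R ≤ r ∧ r ≤ M ∧
            (ball e z r).encard ≤ ((C * r : ℕ) : ℕ∞)) → Finite G ∧ Nat.card G ≤ N := by
  obtain ⟨R, hR⟩ := Pool.Agent.LGU.unif.{u, v} m n C hn
  have h1 : ∀ (G : Type u) (X : Type v) [Group G] [MulAction G X] (e : Fin m → G),
        Subgroup.closure (Set.range e) = ⊤ → (∀ g : G, g ^ n = 1) →
        ∀ (x : X) (r : ℕ), R ≤ r → ball e x r = MulAction.orbit G x ∨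
          ((C * r : ℕ) : ℕ∞) < (ball e x r).encard := by
    intro G X _ _ e hgen hexp x r hr
    rcases hR G X e hgen hexp x r hr with h1 | h1
    · left
      refine Set.Subset.antisymm ?_ fun z hz => (mem_ball_iff e r x z).2 (h1 z hz)
      intro z hz
      rw [ball_eq] at hz
      obtain ⟨w, _, rfl⟩ := hz
      rw [Pool.Agent.QLN.wd_sig]
      exact MulAction.mem_orbit _ _
    · right
      rw [ball_eq']
      exact h1
  refine ⟨R, h1, fun M => ?_⟩
  refine ⟨(max M (C * M)).factorial ^ ((max M (C * M)).factorial ^ m),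
    fun G X _ _ _ e hgen hexp hX => ?_⟩
  refine Pool.Agent.QLN.card_of_bounded (X := X) e hgen fun x => ?_
  rcases le_or_gt (MulAction.orbit G x).encard (M : ℕ∞) with h | h
  · exact h.trans (by exact_mod_cast le_max_left M (C * M))
  · obtain ⟨z, hz, r, hr, hrM, hle⟩ := hX x h
    have h2 : MulAction.orbit G z = MulAction.orbit G x := MulAction.orbit_eq_iff.2 hz
    rcases h1 G X e hgen hexp z r hr with h3 | h3
    · rw [h3, h2] at hle
      refine hle.trans ?_
      exact_mod_cast (Nat.mul_le_mul_left C hrM).trans (le_max_right M (C * M))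
    · exact absurd h3 (not_lt.2 hle)

/-- the class of the groups without infinite finitely generated subgroups of bounded exponent -/
theorem closed.{u, v} : Closed.{u, v} fun G _ => Pool.Agent.LGU.SLF G where
  comm := fun _ _ => Pool.Agent.LGU.slf_comm
  fin := fun _ _ _ => Pool.Agent.LGU.slf_fin
  lin := by
    rintro G _ ⟨m, e, X, _, C, hgen, hf, hC⟩
    intro K n hn hexp
    refine Pool.Agent.LGU.lin_lf.{u, v} (X := X) hf e hgen C (fun R => ?_) K hn hexp
    obtain ⟨r, hr, hrC⟩ := hC R
    refine ⟨r, hr, fun x => ?_⟩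
    rw [← ball_eq]
    exact hrC x
  iso := fun _ _ _ _ h h1 => Pool.Agent.LGU.slf_iso h.some h1
  sub := fun _ _ H h => Pool.Agent.LGU.slf_sub H h
  ext := fun _ _ N _ h1 h2 => Pool.Agent.LGU.slf_ext N h1 h2
  union := fun _ _ S hne hdir hcov h => Pool.Agent.LGU.slf_union S hne hdir hcov h

/-- **Theorem.**  Let `m`, `n`, `C` be given, `n > 0`.  There is `R` with the following properties.
(1) Let `G` be a group with `m` generators in which `g ^ n = 1` for all `g`, acting on `X`.  Each ball of
radius `r ≥ R` in the Schreier graph is the whole orbit of its centre or has more than `C r` points.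
(2) For each `M` there is `N` such that, if moreover the action is faithful and each orbit with more than
`M` points contains the centre of a ball of some radius `r`, `R ≤ r ≤ M`, with at most `C r` points, then
`G` has at most `N` elements.
(3) Let `G` be a group in the least class of groups which contains the abelian groups, the finite groups
and the groups of linear type and is closed under isomorphisms, subgroups, extensions and directed
unions.  Then all finitely generated subgroups of bounded exponent of `G` are finite. -/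
theorem result.{u, v} :
    (∀ m n C : ℕ, 0 < n → ∃ R : ℕ,
      (∀ (G : Type u) (X : Type v) [Group G] [MulAction G X] (e : Fin m → G),
        Subgroup.closure (Set.range e) = ⊤ → (∀ g : G, g ^ n = 1) →
        ∀ (x : X) (r : ℕ), R ≤ r → ball e x r = MulAction.orbit G x ∨
          ((C * r : ℕ) : ℕ∞) < (ball e x r).encard) ∧
      ∀ M : ℕ, ∃ N : ℕ, ∀ (G : Type u) (X : Type v) [Group G] [MulAction G X] [FaithfulSMul G X]
        (e : Fin m → G), Subgroup.closure (Set.range e) = ⊤ → (∀ g : G, g ^ n = 1) →
        (∀ x : X, (M : ℕ∞) < (MulAction.orbit G x).encard →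
          ∃ z ∈ MulAction.orbit G x, ∃ r : ℕ, R ≤ r ∧ r ≤ M ∧
            (ball e z r).encard ≤ ((C * r : ℕ) : ℕ∞)) → Finite G ∧ Nat.card G ≤ N) ∧
    ∀ (G : Type u) [Group G], (∀ P : (∀ (H : Type u) [Group H], Prop), Closed.{u, v} P → P G) →
      ∀ (K : Subgroup G) (n : ℕ), K.FG → 0 < n → (∀ k ∈ K, k ^ n = 1) → Finite K := by
  refine ⟨fun m n C hn => growth.{u, v} m n C hn, fun G _ hG K n hK hn hexp => ?_⟩
  have h1 : Pool.Agent.LGU.SLF G := hG _ closed.{u, v}
  have h2 := h1 K n hn hexp
  have h3 : Group.FG K := (Group.fg_iff_subgroup_fg K).2 hK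
  have h4 : Finite (⊤ : Subgroup K) := Pool.Agent.LGU.lf_fg h2 ⊤ h3.out
  exact Finite.of_equiv _ Subgroup.topEquiv.toEquiv

end Pool.Agent.Results.MP_1f3970_al.SuperlinearGrowth
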