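/-
Groups of bounded exponent: large balls of Schreier graphs have deep binary trees as minors.
-/
import Pool.Agent.Lib.QLN.AllT

set_option autoImplicit false

namespace Pool.Agent.Results.MP_1f3970_al.TreeMinors

/-- The edges of the Schreier graph of the generators `e`. -/
def Edge {G X : Type*} [Group G] [MulAction G X] {m : ℕ} (e : Fin m → G) (x y : X) : Prop :=
  ∃ i, e i • x = y ∨ e i • y = x

/-- The ball of radius `r` around `x` in the Schreier graph. -/
def ball {G X : Type*} [Group G] [MulAction G X] {m : ℕ} (e : Fin m → G) (x : X) : ℕ → Set X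
  | 0 => {x}
  | r + 1 => {y | y ∈ ball e x r ∨ ∃ z ∈ ball e x r, Edge e z y}

/-- The set `S` of points is connected in the Schreier graph. -/
def Connected {G X : Type*} [Group G] [MulAction G X] {m : ℕ} (e : Fin m → G) (S : Set X) : Prop :=
  ∀ x ∈ S, ∀ y ∈ S, Relation.ReflTransGen (fun a b => a ∈ S ∧ b ∈ S ∧ Edge e a b) x y

/-- The complete binary tree of depth `h` is a minor of the set `A` of points of the Schreier graph:
its nodes are the words `u` of length at most `h` in two letters; there are nonempty connected pairwise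
disjoint subsets `B u` of `A`, and an edge joins `B u` to `B (u ++ [b])` for each letter `b`. -/
def TreeMinor {G X : Type*} [Group G] [MulAction G X] {m : ℕ} (e : Fin m → G) (h : ℕ) (A : Set X) :
    Prop :=
  ∃ B : List Bool → Set X,
    (∀ u, u.length ≤ h → B u ⊆ A ∧ (B u).Nonempty ∧ Connected e (B u)) ∧
    (∀ u v, u.length ≤ h → v.length ≤ h → u ≠ v → Disjoint (B u) (B v)) ∧
    ∀ (u : List Bool) (b : Bool), u.length < h → ∃ x ∈ B u, ∃ y ∈ B (u ++ [b]), Edge e x y

section

variable {G X : Type*} [Group G] [MulAction G X] {m : ℕ} (e : Fin m → G)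

theorem edge_iff (x y : X) : Edge e x y ↔ ∃ s, Pool.Agent.QLN.sig X e s x = y := by
  constructor
  · rintro ⟨i, h | h⟩
    · exact ⟨(i, true), h⟩
    · refine ⟨(i, false), ?_⟩
      rw [Pool.Agent.QLN.sig_false, ← h, inv_smul_smul]
  · rintro ⟨⟨i, b⟩, h⟩
    cases b
    · refine ⟨i, Or.inr ?_⟩
      rw [Pool.Agent.QLN.sig_false] at h
      rw [← h, smul_inv_smul]
    · exact ⟨i, Or.inl h⟩

theorem mem_ball_iff (r : ℕ) (x y : X) :
    y ∈ ball e x r ↔ Pool.Agent.QLN.Within (Set.range e) r x y := by
  induction r generalizing y with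
  | zero =>
    constructor
    · rintro rfl; rfl
    · rintro rfl; rfl
  | succ r ih =>
    constructor
    · rintro (h | ⟨z, hz, i, h⟩)
      · exact ⟨y, (ih y).1 h, Or.inl rfl⟩
      · exact ⟨z, (ih z).1 hz, Or.inr ⟨e i, ⟨i, rfl⟩, h⟩⟩
    · rintro ⟨z, hz, rfl | ⟨s, ⟨i, rfl⟩, h⟩⟩
      · exact Or.inl ((ih z).2 hz)
      · exact Or.inr ⟨z, (ih z).2 hz, i, h⟩

theorem ball_eq (r : ℕ) (x : X) :
    ball e x r = Pool.Agent.QLN.ball (Pool.Agent.QLN.sig X e) x r := by
  ext y
  rw [mem_ball_iff, Pool.Agent.QLN.within_iff]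

theorem treeMinor_of_model {h : ℕ} {A : Set X} {B : List Bool → Set X}
    (hB : Pool.Agent.QLN.TRE.Model (fun a b => ∃ s, Pool.Agent.QLN.sig X e s a = b) h A B) :
    TreeMinor e h A := by
  refine ⟨B, fun u hu => ⟨hB.sub u hu, hB.ne u hu, fun x hx y hy => ?_⟩, hB.disj, fun u b hu => ?_⟩
  · have h1 := hB.conn u hu x hx y hy
    induction h1 with
    | refl => exact Relation.ReflTransGen.refl
    | tail _ h2 ih =>
      exact (ih h2.1).tail ⟨h2.1, h2.2.1, (edge_iff e _ _).2 h2.2.2⟩
  · obtain ⟨x, hx, y, hy, h1⟩ := hB.edge u b hu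
    exact ⟨x, hx, y, hy, (edge_iff e x y).2 h1⟩

end

/-- **Theorem.**  Let `m`, `n`, `h` be given, `n > 0`.  There is `R` with the following properties.
(1) Let `G` be a group with `m` generators in which `g ^ n = 1` for all `g`, acting on `X`.  Each ball of
radius `R` in the Schreier graph is the whole orbit of its centre or has the complete binary tree of
depth `h` as a minor.
(2) For each `M` there is `N` such that, if moreover the action is faithful and each orbit with more than
`M` points contains the centre of a ball of radius `R` without this minor, then `G` has at most `N`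
elements.
(3) In particular, for each `K` there is `N` such that every group generated by `m` permutations of the
integers of displacement at most `K`, in which `g ^ n = 1` for all `g`, has at most `N` elements. -/
theorem result.{u, v} (m n h : ℕ) (hn : 0 < n) :
    (∃ R : ℕ,
      (∀ (G : Type u) (X : Type v) [Group G] [MulAction G X] (e : Fin m → G),
        Subgroup.closure (Set.range e) = ⊤ → (∀ g : G, g ^ n = 1) →
        ∀ x : X, ball e x R = MulAction.orbit G x ∨ TreeMinor e h (ball e x R)) ∧
      ∀ M : ℕ, ∃ N : ℕ, ∀ (G : Type u) (X : Type v) [Group G] [MulAction G X] [FaithfulSMul G X]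
        (e : Fin m → G), Subgroup.closure (Set.range e) = ⊤ → (∀ g : G, g ^ n = 1) →
        (∀ x : X, (M : ℕ∞) < (MulAction.orbit G x).encard →
          ∃ y ∈ MulAction.orbit G x, ¬ TreeMinor e h (ball e y R)) → Finite G ∧ Nat.card G ≤ N) ∧
    ∀ K : ℕ, ∃ N : ℕ, ∀ e : Fin m → Equiv.Perm ℤ, (∀ i j, |e i j - j| ≤ (K : ℤ)) →
      (∀ g ∈ Subgroup.closure (Set.range e), g ^ n = 1) →
      Finite (Subgroup.closure (Set.range e)) ∧ Nat.card (Subgroup.closure (Set.range e)) ≤ N := by
  refine ⟨?_, fun K => ?_⟩
  · obtain ⟨R, hR⟩ := Pool.Agent.QLN.tree_minors.{u, v} m n h hn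
    refine ⟨R, fun G X _ _ e hgen hexp x => ?_, fun M => ?_⟩
    · rcases hR G X e hgen hexp x with h1 | ⟨B, hB⟩
      · left
        refine Set.Subset.antisymm ?_ fun z hz => (mem_ball_iff e R x z).2 (h1 z hz)
        intro z hz
        rw [ball_eq] at hz
        obtain ⟨w, _, rfl⟩ := hz
        rw [Pool.Agent.QLN.wd_sig]
        exact MulAction.mem_orbit _ _
      · right
        rw [ball_eq]
        exact treeMinor_of_model e hB
    · obtain ⟨N', hN'⟩ := Pool.Agent.QLN.ball_card'.{u, v} m R
      refine ⟨(max M N').factorial ^ ((max M N').factorial ^ m), fun G X _ _ _ e hgen hexp hX => ?_⟩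
      refine Pool.Agent.QLN.card_of_bounded (X := X) e hgen
        (Pool.Agent.QLN.orbit_final e R M N' (hN' G X e) (fun y => ¬ TreeMinor e h (ball e y R))
          (fun y hy z hz => ?_) hX)
      rcases hR G X e hgen hexp y with h1 | ⟨B, hB⟩
      · exact h1 z hz
      · exfalso
        apply hy
        rw [ball_eq]
        exact treeMinor_of_model e hB
  · exact Pool.Agent.QLN.card_int m n K hn

end Pool.Agent.Results.MP_1f3970_al.TreeMinors
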