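import Pool.Agent.Lib.AMB.Main

/-!
# Infinite finitely generated amenable groups of bounded exponent: equivalent forms of the question
-/

set_option autoImplicit false

namespace Pool.Agent.Results.MP_1f3970_al.Universality

/-- `G` is amenable: Foelner's condition, as in the frozen statement -/
def Amenable (G : Type) [Group G] : Prop :=
  ∀ (S : Finset G) (ε : ℝ), 0 < ε →
    ∃ F : Finset G, F.Nonempty ∧
      ∀ s ∈ S, ((((fun x => s * x) '' (↑F : Set G)) \ (↑F : Set G)).ncard : ℝ) <
        ε * (F.card : ℝ)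

/-- `G` is generated by two elements -/
def TwoGenerated (G : Type) [Group G] : Prop :=
  ∃ x y : G, Subgroup.closure {x, y} = ⊤

/-- `Γ` is large: a subgroup of finite index maps onto the free group of rank two -/
def Large (Γ : Type) [Group Γ] : Prop :=
  ∃ Δ : Subgroup Γ, Δ.FiniteIndex ∧ ∃ θ : Δ →* FreeGroup (Fin 2), Function.Surjective θ

/-- `G` is residually finite -/
def ResiduallyFinite (G : Type) [Group G] : Prop :=
  ∀ g : G, g ≠ 1 → ∃ N : Subgroup G, N.Normal ∧ N.FiniteIndex ∧ g ∉ N

/-- The following are equivalent: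
(1) there is an infinite finitely generated amenable group of bounded exponent;
(2) every countable amenable group of bounded exponent embeds in an amenable group of bounded
exponent with two generators;
(3) every finitely generated large group has an infinite amenable quotient of bounded exponent;
(4) for some `n` there is a family, indexed by all sets of natural numbers, of pairwise non
isomorphic infinite amenable groups with two generators and `g ^ n = 1`;
(5) there is an infinite finitely generated amenable group of bounded exponent which is simple or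
residually finite. -/
theorem result : List.TFAE
    [ ∃ (G : Type) (_ : Group G),
        Group.FG G ∧ Infinite G ∧ Monoid.ExponentExists G ∧ Amenable G,
      ∀ (A : Type) (_ : Group A), Countable A → Monoid.ExponentExists A → Amenable A →
        ∃ (H : Type) (_ : Group H), TwoGenerated H ∧ Monoid.ExponentExists H ∧ Amenable H ∧
          ∃ φ : A →* H, Function.Injective φ,
      ∀ (Γ : Type) (_ : Group Γ), Group.FG Γ → Large Γ →
        ∃ (N : Subgroup Γ) (_ : N.Normal),
          Infinite (Γ ⧸ N) ∧ Monoid.ExponentExists (Γ ⧸ N) ∧ Amenable (Γ ⧸ N),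
      ∃ n : ℕ, 0 < n ∧ ∃ (H : Set ℕ → Type) (_ : ∀ S, Group (H S)),
        (∀ S T, S ≠ T → IsEmpty (H S ≃* H T)) ∧
        ∀ S, TwoGenerated (H S) ∧ Infinite (H S) ∧ (∀ h : H S, h ^ n = 1) ∧ Amenable (H S),
      ∃ (G : Type) (_ : Group G),
        Group.FG G ∧ Infinite G ∧ Monoid.ExponentExists G ∧ Amenable G ∧
          (IsSimpleGroup G ∨ ResiduallyFinite G) ] := by
  have hfg : ∀ (H : Type) (_ : Group H), TwoGenerated H → Group.FG H := by
    classical
    rintro H _ ⟨x, y, h⟩
    exact ⟨⟨{x, y}, by rw [← h]; simp⟩⟩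
  tfae_have 1 → 2 := by
    rintro ⟨G, _, hG, hinf, ⟨m, hm, hGm⟩, hF⟩ A _ hc ⟨n, hn, hAn⟩ hA
    exact AMB.exists_embedding hG hn hm hAn hGm hA hF
  tfae_have 2 → 1 := by
    intro h
    obtain ⟨H, _, h1, h2, h3, φ, hφ⟩ := h (Multiplicative (ℕ →₀ ZMod 2)) inferInstance
      (inferInstanceAs (Countable (ℕ →₀ ZMod 2))) ⟨2, two_pos, by
        intro g
        have key : ∀ f : ℕ →₀ ZMod 2, 2 • f = 0 := by
          intro f
          ext i
          simp only [Finsupp.smul_apply, Finsupp.coe_zero, Pi.zero_apply]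
          generalize f i = z
          revert z
          decide
        exact key (Multiplicative.toAdd g)⟩ AMB.folner_elementary
    have : Infinite (Multiplicative (ℕ →₀ ZMod 2)) := inferInstanceAs (Infinite (ℕ →₀ ZMod 2))
    exact ⟨H, inferInstance, hfg H _ h1, Infinite.of_injective φ hφ, h2, h3⟩
  tfae_have 1 → 3 := by
    rintro ⟨G, _, hG, hinf, ⟨m, hm, hGm⟩, hF⟩ Γ _ _ ⟨Δ, hΔ, θ, hθ⟩
    obtain ⟨H, _, ⟨k, hk, h1⟩, h2, ⟨x, y, hxy⟩, φ, hφ⟩ := AMB.exists_two hG hm hGm hF
    have hs : Function.Surjective (FreeGroup.lift ![x, y]) := by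
      rw [← MonoidHom.range_eq_top, eq_top_iff, ← hxy, Subgroup.closure_le]
      rintro z (rfl | hz)
      · exact ⟨FreeGroup.of 0, by simp⟩
      · rw [Set.mem_singleton_iff.1 hz]
        exact ⟨FreeGroup.of 1, by simp⟩
    exact AMB.exists_quotient Δ ((FreeGroup.lift ![x, y]).comp θ) (hs.comp hθ)
      (Infinite.of_injective φ hφ) h2 hk h1
  tfae_have 3 → 1 := by
    intro h
    obtain ⟨N, hN, h1, h2, h3⟩ := h (FreeGroup (Fin 2)) inferInstance inferInstance
      ⟨⊤, inferInstance, (Subgroup.topEquiv (G := FreeGroup (Fin 2))).toMonoidHom,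
        fun x => ⟨⟨x, Subgroup.mem_top x⟩, rfl⟩⟩
    exact ⟨_, inferInstance, Group.fg_of_surjective (QuotientGroup.mk'_surjective N), h1, h2, h3⟩
  tfae_have 1 → 4 := by
    rintro ⟨G, _, hG, hinf, ⟨m, hm, hGm⟩, hF⟩
    exact AMB.exists_continuum hG hm hGm hF
  tfae_have 4 → 1 := by
    rintro ⟨n, hn, H, _, _, h⟩
    obtain ⟨h1, h2, h3, h4⟩ := h ∅
    exact ⟨H ∅, inferInstance, hfg _ _ h1, h2, ⟨n, hn, h3⟩, h4⟩
  tfae_have 1 → 5 := by
    rintro ⟨G, _, hG, hinf, hexp, hF⟩
    exact AMB.exists_simple_or_rf G hG hinf hexp hF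
  tfae_have 5 → 1 := by
    rintro ⟨G, _, hG, hinf, hexp, hF, _⟩
    exact ⟨G, inferInstance, hG, hinf, hexp, hF⟩
  tfae_finish

end Pool.Agent.Results.MP_1f3970_al.Universality
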